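import Mathlib

/-!
# The mean difference of a function on the strands decreases under a stationary two-point kernel
-/

set_option autoImplicit false

namespace Pool.Agent.Helper61.UNI

open Finset

/-- the mean difference -/
noncomputable def Phi (S : Finset ℕ) (p : ℕ → ℝ) (x : ℕ → ℂ) : ℝ := ∑ a ∈ S, ∑ b ∈ S, p a * p b * ‖x a - x b‖

/-- splitting off two indices -/
theorem split_two {S : Finset ℕ} {i : ℕ} (hi : i ∈ S) (hi' : i + 1 ∈ S) (f : ℕ → ℝ) :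
    ∑ a ∈ S, f a = ∑ a ∈ (S.erase i).erase (i + 1), f a + f i + f (i + 1) := by
  have h1 : i + 1 ∈ S.erase i := mem_erase.2 ⟨by omega, hi'⟩
  rw [← sum_erase_add S f hi, ← sum_erase_add (S.erase i) f h1]
  ring

theorem split_pairs {S : Finset ℕ} {i : ℕ} (hi : i ∈ S) (hi' : i + 1 ∈ S) (F : ℕ → ℕ → ℝ)
    (hs : ∀ a b, F a b = F b a) (hd : ∀ a, F a a = 0) :
    ∑ a ∈ S, ∑ b ∈ S, F a b = ∑ a ∈ (S.erase i).erase (i + 1), ∑ b ∈ (S.erase i).erase (i + 1), F a b +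
      2 * ∑ b ∈ (S.erase i).erase (i + 1), (F i b + F (i + 1) b) + 2 * F i (i + 1) := by
  obtain ⟨R, hR⟩ : ∃ R, R = (S.erase i).erase (i + 1) := ⟨_, rfl⟩
  have h1 : ∀ g : ℕ → ℝ, ∑ a ∈ S, g a = ∑ a ∈ R, g a + g i + g (i + 1) := by
    intro g
    rw [hR]
    exact split_two hi hi' g
  rw [← hR, h1]
  have h2 : ∀ a, ∑ b ∈ S, F a b = ∑ b ∈ R, F a b + F a i + F a (i + 1) := fun a => h1 (F a)
  rw [h2 i, h2 (i + 1), sum_congr rfl fun a _ => h2 a, sum_add_distrib, sum_add_distrib, sum_add_distrib]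
  have h3 : ∑ a ∈ R, F a i = ∑ b ∈ R, F i b := sum_congr rfl fun a _ => hs a i
  have h4 : ∑ a ∈ R, F a (i + 1) = ∑ b ∈ R, F (i + 1) b := sum_congr rfl fun a _ => hs a (i + 1)
  rw [h3, h4, hd, hd, hs (i + 1) i]
  ring

/-- **One letter, real coefficients.** -/
theorem gini {S : Finset ℕ} {p : ℕ → ℝ} (hp : ∀ a, 0 ≤ p a) {i : ℕ} (hi : i ∈ S) (hi' : i + 1 ∈ S) {α β t : ℝ}
    (hα : 0 ≤ α) (hα1 : α ≤ 1) (hβ : 0 ≤ β) (hβ1 : β ≤ 1) (ht : α + β = 1 + t) (ht0 : 0 ≤ t) (hst : p i * α = p (i + 1) * β)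
    {x x' : ℕ → ℂ} (h0 : ∀ a, a ≠ i → a ≠ i + 1 → x' a = x a) (h1 : x' i = (1 - α : ℝ) * x i + (α : ℝ) * x (i + 1))
    (h2 : x' (i + 1) = (β : ℝ) * x i + (1 - β : ℝ) * x (i + 1)) :
    Phi S p x' ≤ Phi S p x - 2 * (1 - t) * (p i * p (i + 1)) * ‖x (i + 1) - x i‖ := by
  have hs : ∀ (y : ℕ → ℂ) (a b : ℕ), p a * p b * ‖y a - y b‖ = p b * p a * ‖y b - y a‖ := by
    intro y a b
    rw [norm_sub_rev, mul_comm (p a)]
  have hd : ∀ (y : ℕ → ℂ) (a : ℕ), p a * p a * ‖y a - y a‖ = 0 := by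
    intro y a
    rw [sub_self, norm_zero, mul_zero]
  unfold Phi
  rw [split_pairs hi hi' (fun a b => p a * p b * ‖x' a - x' b‖) (hs x') (hd x'),
    split_pairs hi hi' (fun a b => p a * p b * ‖x a - x b‖) (hs x) (hd x)]
  obtain ⟨R, hR⟩ : ∃ R, R = (S.erase i).erase (i + 1) := ⟨_, rfl⟩
  rw [← hR]
  have hRm : ∀ b ∈ R, b ≠ i ∧ b ≠ i + 1 := by
    intro b hb
    rw [hR] at hb
    exact ⟨(mem_erase.1 (mem_erase.1 hb).2).1, (mem_erase.1 hb).1⟩
  have e1 : ∑ a ∈ R, ∑ b ∈ R, p a * p b * ‖x' a - x' b‖ = ∑ a ∈ R, ∑ b ∈ R, p a * p b * ‖x a - x b‖ := by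
    refine sum_congr rfl fun a ha => sum_congr rfl fun b hb => ?_
    rw [h0 a (hRm a ha).1 (hRm a ha).2, h0 b (hRm b hb).1 (hRm b hb).2]
  have e2 : ∑ b ∈ R, (p i * p b * ‖x' i - x' b‖ + p (i + 1) * p b * ‖x' (i + 1) - x' b‖) ≤
      ∑ b ∈ R, (p i * p b * ‖x i - x b‖ + p (i + 1) * p b * ‖x (i + 1) - x b‖) := by
    refine sum_le_sum fun b hb => ?_
    rw [h0 b (hRm b hb).1 (hRm b hb).2, h1, h2]
    have n1 : ‖((1 - α : ℝ) : ℂ) * x i + (α : ℝ) * x (i + 1) - x b‖ ≤ (1 - α) * ‖x i - x b‖ + α * ‖x (i + 1) - x b‖ := by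
      have e : ((1 - α : ℝ) : ℂ) * x i + (α : ℝ) * x (i + 1) - x b =
          ((1 - α : ℝ) : ℂ) * (x i - x b) + (α : ℝ) * (x (i + 1) - x b) := by
        push_cast
        ring
      rw [e]
      refine (norm_add_le _ _).trans ?_
      rw [norm_mul, norm_mul, Complex.norm_real, Complex.norm_real, Real.norm_of_nonneg (by linarith : (0 : ℝ) ≤ 1 - α), Real.norm_of_nonneg hα]
    have n2 : ‖(β : ℂ) * x i + ((1 - β : ℝ) : ℂ) * x (i + 1) - x b‖ ≤ β * ‖x i - x b‖ + (1 - β) * ‖x (i + 1) - x b‖ := by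
      have e : (β : ℂ) * x i + ((1 - β : ℝ) : ℂ) * x (i + 1) - x b =
          (β : ℂ) * (x i - x b) + ((1 - β : ℝ) : ℂ) * (x (i + 1) - x b) := by
        push_cast
        ring
      rw [e]
      refine (norm_add_le _ _).trans ?_
      rw [norm_mul, norm_mul, Complex.norm_real, Complex.norm_real, Real.norm_of_nonneg hβ, Real.norm_of_nonneg (by linarith : (0 : ℝ) ≤ 1 - β)]
    have m1 := mul_le_mul_of_nonneg_left n1 (mul_nonneg (hp i) (hp b))
    have m2 := mul_le_mul_of_nonneg_left n2 (mul_nonneg (hp (i + 1)) (hp b))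
    refine (add_le_add m1 m2).trans (le_of_eq ?_)
    linear_combination (p b * (‖x (i + 1) - x b‖ - ‖x i - x b‖)) * hst
  have e3 : ‖x' i - x' (i + 1)‖ = t * ‖x i - x (i + 1)‖ := by
    rw [h1, h2]
    have e : ((1 - α : ℝ) : ℂ) * x i + (α : ℝ) * x (i + 1) - ((β : ℂ) * x i + ((1 - β : ℝ) : ℂ) * x (i + 1)) =
        ((-t : ℝ) : ℂ) * (x i - x (i + 1)) := by
      have ht' : (t : ℂ) = α + β - 1 := by
        have : t = α + β - 1 := by linarith
        rw [this]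
        push_cast
        ring
      push_cast
      rw [ht']
      ring
    rw [e, norm_mul, Complex.norm_real, norm_neg, Real.norm_of_nonneg ht0]
  rw [e1, e3, norm_sub_rev (x (i + 1)) (x i)]
  have e4 := mul_le_mul_of_nonneg_left e2 (by norm_num : (0 : ℝ) ≤ 2)
  nlinarith

/-- **Adding an error.** -/
theorem Phi_add_le {S : Finset ℕ} {p : ℕ → ℝ} (hp : ∀ a, 0 ≤ p a) (x e : ℕ → ℂ) :
    Phi S p (fun a => x a + e a) ≤ Phi S p x + Phi S p e := by
  unfold Phi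
  rw [← sum_add_distrib]
  refine sum_le_sum fun a _ => ?_
  rw [← sum_add_distrib]
  refine sum_le_sum fun b _ => ?_
  have h : x a + e a - (x b + e b) = (x a - x b) + (e a - e b) := by ring
  rw [h, ← mul_add]
  exact mul_le_mul_of_nonneg_left (norm_add_le _ _) (mul_nonneg (hp a) (hp b))

/-- **The size of a local error.** -/
theorem Phi_err {N : ℕ} {p : ℕ → ℝ} (hp : ∀ a, 0 ≤ p a) {i : ℕ} {c : ℝ} (hc : 0 ≤ c) {e : ℕ → ℂ}
    (h1 : ∀ a, a < i → e a = 0) (h2 : ∀ a b, i + 2 ≤ a → i + 2 ≤ b → e a = e b) (h3 : ∀ a b, ‖e a - e b‖ ≤ c) :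
    Phi (range N) p e ≤ 2 * c * (∑ a ∈ (range N).filter (· ≤ i + 1), p a) * ∑ b ∈ (range N).filter (i ≤ ·), p b := by
  have key : ∀ a b, p a * p b * ‖e a - e b‖ ≤
      c * ((if a ≤ i + 1 then p a else 0) * (if i ≤ b then p b else 0) + (if b ≤ i + 1 then p b else 0) * (if i ≤ a then p a else 0)) := by
    intro a b
    have hpp := mul_nonneg (hp a) (hp b)
    have n3 := mul_le_mul_of_nonneg_left (h3 a b) hpp
    have pos1 : 0 ≤ (if b ≤ i + 1 then p b else 0) * (if i ≤ a then p a else 0) := by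
      split_ifs <;> first | exact mul_nonneg (hp _) (hp _) | simp
    have pos2 : 0 ≤ (if a ≤ i + 1 then p a else 0) * (if i ≤ b then p b else 0) := by
      split_ifs <;> first | exact mul_nonneg (hp _) (hp _) | simp
    by_cases ha : a ≤ i + 1 ∧ i ≤ b
    · rw [if_pos ha.1, if_pos ha.2]
      nlinarith [mul_nonneg hc pos1]
    by_cases hb : b ≤ i + 1 ∧ i ≤ a
    · rw [if_pos hb.1, if_pos hb.2]
      nlinarith [mul_nonneg hc pos2]
    have hz : e a - e b = 0 := by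
      rw [not_and_or] at ha hb
      by_cases h4 : a < i
      · have h5 : b < i := by omega
        rw [h1 a h4, h1 b h5, sub_zero]
      · have h5 : i + 2 ≤ a := by omega
        have h6 : i + 2 ≤ b := by omega
        rw [h2 a b h5 h6, sub_self]
    rw [hz, norm_zero, mul_zero]
    exact mul_nonneg hc (add_nonneg pos2 pos1)
  unfold Phi
  refine (sum_le_sum fun a _ => sum_le_sum fun b _ => key a b).trans (le_of_eq ?_)
  obtain ⟨u, hu⟩ : ∃ u : ℕ → ℝ, u = fun a => if a ≤ i + 1 then p a else 0 := ⟨_, rfl⟩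
  obtain ⟨v, hv⟩ : ∃ v : ℕ → ℝ, v = fun a => if i ≤ a then p a else 0 := ⟨_, rfl⟩
  have e1 : ∑ a ∈ (range N).filter (· ≤ i + 1), p a = ∑ a ∈ range N, u a := by
    rw [hu, sum_filter]
  have e2 : ∑ a ∈ (range N).filter (i ≤ ·), p a = ∑ a ∈ range N, v a := by
    rw [hv, sum_filter]
  rw [e1, e2]
  have e3 : ∀ a b, c * ((if a ≤ i + 1 then p a else 0) * (if i ≤ b then p b else 0) + (if b ≤ i + 1 then p b else 0) * (if i ≤ a then p a else 0)) =
      c * (u a * v b) + c * (u b * v a) := by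
    intro a b
    rw [hu, hv]
    ring
  rw [sum_congr rfl fun a _ => sum_congr rfl fun b _ => e3 a b]
  have e4 : ∑ a ∈ range N, ∑ b ∈ range N, (c * (u a * v b) + c * (u b * v a)) =
      ∑ a ∈ range N, ∑ b ∈ range N, c * (u a * v b) + ∑ a ∈ range N, ∑ b ∈ range N, c * (u b * v a) := by
    rw [← sum_add_distrib]
    exact sum_congr rfl fun a _ => sum_add_distrib
  have e5 : ∑ a ∈ range N, ∑ b ∈ range N, c * (u b * v a) = ∑ a ∈ range N, ∑ b ∈ range N, c * (u a * v b) := sum_comm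
  have e6 : ∑ a ∈ range N, ∑ b ∈ range N, c * (u a * v b) = c * ((∑ a ∈ range N, u a) * ∑ b ∈ range N, v b) := by
    rw [sum_mul_sum, mul_sum]
    exact sum_congr rfl fun a _ => by rw [mul_sum]
  rw [e4, e5, e6]
  ring

end Pool.Agent.Helper61.UNI
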