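import Mathlib

/-!
# The weights: harmonic functions and the stationary measure
-/

set_option autoImplicit false

namespace Pool.Agent.Helper61.UNI

open Finset

/-- the harmonic function -/
noncomputable def hh (σ : ℝ) (m : ℤ) : ℝ := σ ^ m + σ ^ (-m)

/-- the stationary measure -/
noncomputable def pp (σ : ℝ) (m : ℤ) : ℝ := (hh σ (m - 1) * hh σ m)⁻¹

/-- the hyperbolic tangent -/
noncomputable def tt (σ : ℝ) (m : ℤ) : ℝ := (σ ^ (-m) - σ ^ m) / hh σ m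

variable {σ : ℝ}

theorem hh_pos (h0 : 0 < σ) (m : ℤ) : 0 < hh σ m := add_pos (zpow_pos h0 _) (zpow_pos h0 _)

theorem hh_neg (m : ℤ) : hh σ (-m) = hh σ m := by
  unfold hh
  rw [neg_neg, add_comm]

theorem hh_zero : hh σ 0 = 2 := by
  unfold hh
  norm_num

theorem zpow_pred (h0 : 0 < σ) (m : ℤ) : σ ^ (m - 1) = σ ^ m * σ⁻¹ := by
  rw [zpow_sub_one₀ h0.ne']

theorem zpow_succ (h0 : 0 < σ) (m : ℤ) : σ ^ (m + 1) = σ ^ m * σ := by
  rw [zpow_add_one₀ h0.ne']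

theorem hh_pred (h0 : 0 < σ) (m : ℤ) : hh σ (m - 1) = σ ^ m * σ⁻¹ + σ ^ (-m) * σ := by
  unfold hh
  rw [zpow_pred h0, show -(m - 1) = -m + 1 by ring, zpow_succ h0]

theorem hh_succ (h0 : 0 < σ) (m : ℤ) : hh σ (m + 1) = σ ^ m * σ + σ ^ (-m) * σ⁻¹ := by
  unfold hh
  rw [zpow_succ h0, show -(m + 1) = -m - 1 by ring, zpow_pred h0]

theorem harm (h0 : 0 < σ) (m : ℤ) : σ * hh σ (m - 1) + σ * hh σ (m + 1) = (1 + σ ^ 2) * hh σ m := by
  rw [hh_pred h0, hh_succ h0]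
  unfold hh
  field_simp
  ring

theorem pred_le (h0 : 0 < σ) (h1 : σ < 1) (m : ℤ) : σ * hh σ (m - 1) ≤ hh σ m := by
  rw [hh_pred h0]
  unfold hh
  have h2 : 0 < σ ^ (-m) := zpow_pos h0 _
  have h3 : σ * (σ ^ m * σ⁻¹ + σ ^ (-m) * σ) = σ ^ m + σ ^ (-m) * σ ^ 2 := by
    field_simp
  rw [h3]
  have h4 : σ ^ 2 ≤ 1 := by nlinarith
  nlinarith

theorem succ_le (h0 : 0 < σ) (h1 : σ < 1) (m : ℤ) : σ * hh σ (m + 1) ≤ hh σ m := by
  have h := pred_le h0 h1 (-m)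
  rw [hh_neg, show -m - 1 = -(m + 1) by ring, hh_neg] at h
  exact h

theorem le_pred (h0 : 0 < σ) (h1 : σ < 1) (m : ℤ) : σ * hh σ m ≤ hh σ (m - 1) := by
  have h := succ_le h0 h1 (m - 1)
  rwa [sub_add_cancel] at h

theorem le_succ (h0 : 0 < σ) (h1 : σ < 1) (m : ℤ) : σ * hh σ m ≤ hh σ (m + 1) := by
  have h := pred_le h0 h1 (m + 1)
  rwa [add_sub_cancel_right] at h

theorem pp_pos (h0 : 0 < σ) (m : ℤ) : 0 < pp σ m := inv_pos.2 (mul_pos (hh_pos h0 _) (hh_pos h0 _))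

/-- reversibility -/
theorem pp_rev (h0 : 0 < σ) (m : ℤ) :
    pp σ m * (σ * hh σ (m - 1) / hh σ m) = pp σ (m + 1) * (σ * hh σ (m + 1) / hh σ m) := by
  have h1 := hh_pos h0 (m - 1)
  have h2 := hh_pos h0 m
  have h3 := hh_pos h0 (m + 1)
  unfold pp
  rw [add_sub_cancel_right]
  field_simp

/-- telescoping -/
theorem pp_eq (h0 : 0 < σ) (h1 : σ < 1) (m : ℤ) : pp σ m * (2 * (σ⁻¹ - σ)) = tt σ m - tt σ (m - 1) := by
  have h2 := hh_pos h0 m
  have h3 := hh_pos h0 (m - 1)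
  have h4 : 0 < σ ^ m := zpow_pos h0 _
  have h5 : 0 < σ ^ (-m) := zpow_pos h0 _
  have h6 : σ ^ m * σ ^ (-m) = 1 := by rw [← zpow_add₀ h0.ne', add_neg_cancel, zpow_zero]
  unfold pp tt
  rw [div_sub_div _ _ h2.ne' h3.ne', inv_mul_eq_div, mul_comm (hh σ (m - 1)), div_left_inj' (by positivity)]
  rw [hh_pred h0, zpow_pred h0, show -(m - 1) = -m + 1 by ring, zpow_succ h0]
  unfold hh
  obtain ⟨u, hu⟩ : ∃ u, u = σ ^ m := ⟨_, rfl⟩
  obtain ⟨v, hv⟩ : ∃ v, v = σ ^ (-m) := ⟨_, rfl⟩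
  obtain ⟨r, hr⟩ : ∃ r, r = σ⁻¹ := ⟨_, rfl⟩
  rw [← hu, ← hv] at h6 ⊢
  rw [← hr]
  linear_combination (-2 * (r - σ)) * h6

theorem tt_upper (h0 : 0 < σ) (m : ℤ) : 1 - tt σ m = 2 * σ ^ m / hh σ m := by
  have h2 := hh_pos h0 m
  unfold tt
  rw [eq_div_iff h2.ne', sub_mul, div_mul_cancel₀ _ h2.ne']
  unfold hh
  ring

theorem tt_lower (h0 : 0 < σ) (m : ℤ) : 1 + tt σ m = 2 * σ ^ (-m) / hh σ m := by
  have h2 := hh_pos h0 m
  unfold tt
  rw [eq_div_iff h2.ne', add_mul, div_mul_cancel₀ _ h2.ne']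
  unfold hh
  ring

theorem dd_pos (h0 : 0 < σ) (h1 : σ < 1) : 0 < σ⁻¹ - σ := by
  have : 1 < σ⁻¹ := (one_lt_inv₀ h0).2 h1
  linarith

/-- the mass above `i` -/
theorem sum_above (h0 : 0 < σ) (h1 : σ < 1) (N i : ℕ) (k : ℤ) :
    ∑ b ∈ (range N).filter (i ≤ ·), pp σ (b - k) ≤ σ ^ ((i : ℤ) - k - 1) / (hh σ (i - k - 1) * (σ⁻¹ - σ)) := by
  have hd := dd_pos h0 h1
  have key : ∀ M : ℕ, i ≤ M → ∑ b ∈ (range M).filter (i ≤ ·), pp σ (b - k) * (2 * (σ⁻¹ - σ)) = tt σ ((M : ℤ) - 1 - k) - tt σ (i - 1 - k) := by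
    intro M hM
    induction M, hM using Nat.le_induction with
    | base =>
      rw [filter_eq_empty_iff.2, sum_empty, sub_self]
      intro b hb
      have := mem_range.1 hb
      omega
    | succ M hM ih =>
      rw [range_add_one, filter_insert, if_pos hM, sum_insert (by simp), ih, pp_eq h0 h1]
      push_cast
      rw [show (M : ℤ) + 1 - 1 - k = M - k by ring, show (M : ℤ) - k - 1 = M - 1 - k by ring]
      ring
  have hle : ∑ b ∈ (range N).filter (i ≤ ·), pp σ (b - k) * (2 * (σ⁻¹ - σ)) ≤ 1 - tt σ (i - 1 - k) := by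
    have hup : ∀ m : ℤ, tt σ m ≤ 1 := by
      intro m
      have h2 := tt_upper h0 m
      have h3 : 0 ≤ 2 * σ ^ m / hh σ m := by
        have := hh_pos h0 m
        have := zpow_pos h0 m
        positivity
      linarith
    rcases le_total i N with h | h
    · rw [key N h]
      linarith [hup ((N : ℤ) - 1 - k)]
    · rw [filter_eq_empty_iff.2, sum_empty]
      · linarith [hup ((i : ℤ) - 1 - k)]
      · intro b hb
        have := mem_range.1 hb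
        omega
  rw [← sum_mul, tt_upper h0, show (i : ℤ) - 1 - k = i - k - 1 by ring] at hle
  have h2 := hh_pos h0 ((i : ℤ) - k - 1)
  rw [le_div_iff₀ (by positivity)]
  rw [le_div_iff₀ h2] at hle
  nlinarith

/-- the mass up to `i + 1` -/
theorem sum_below (h0 : 0 < σ) (h1 : σ < 1) (N i : ℕ) (k : ℤ) :
    ∑ a ∈ (range N).filter (· ≤ i + 1), pp σ (a - k) ≤ σ ^ (-((i : ℤ) - k + 1)) / (hh σ (i - k + 1) * (σ⁻¹ - σ)) := by
  have hd := dd_pos h0 h1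
  have hlow : ∀ m : ℤ, -1 ≤ tt σ m := by
    intro m
    have h2 := tt_lower h0 m
    have h3 : 0 ≤ 2 * σ ^ (-m) / hh σ m := by
      have := hh_pos h0 m
      have := zpow_pos h0 (-m)
      positivity
    linarith
  have key : ∀ M : ℕ, ∑ b ∈ range M, pp σ (b - k) * (2 * (σ⁻¹ - σ)) = tt σ ((M : ℤ) - 1 - k) - tt σ (-1 - k) := by
    intro M
    induction M with
    | zero => simp
    | succ M ih =>
      rw [sum_range_succ, ih, pp_eq h0 h1]
      push_cast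
      rw [show (M : ℤ) + 1 - 1 - k = M - k by ring, show (M : ℤ) - k - 1 = M - 1 - k by ring]
      ring
  have hsub : ∑ a ∈ (range N).filter (· ≤ i + 1), pp σ (a - k) ≤ ∑ a ∈ range (i + 2), pp σ (a - k) := by
    refine sum_le_sum_of_subset_of_nonneg ?_ fun a _ _ => (pp_pos h0 _).le
    intro a ha
    rw [mem_filter] at ha
    rw [mem_range]
    omega
  have h3 := key (i + 2)
  rw [← sum_mul] at h3
  have h4 : ∑ a ∈ range (i + 2), pp σ (a - k) * (2 * (σ⁻¹ - σ)) = (∑ a ∈ range (i + 2), pp σ (a - k)) * (2 * (σ⁻¹ - σ)) := by rw [sum_mul]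
  have h5 : (∑ a ∈ range (i + 2), pp σ (a - k)) * (2 * (σ⁻¹ - σ)) ≤ 1 + tt σ ((i : ℤ) - k + 1) := by
    rw [h3]
    have h6 := hlow (-1 - k)
    push_cast
    rw [show (i : ℤ) + 2 - 1 - k = i - k + 1 by ring]
    linarith
  rw [tt_lower h0] at h5
  have h2 := hh_pos h0 ((i : ℤ) - k + 1)
  refine hsub.trans ?_
  rw [le_div_iff₀ (by positivity)]
  rw [le_div_iff₀ h2] at h5
  nlinarith

/-- **The loss for one centre.** -/
theorem loss_le (h0 : 0 < σ) (h1 : σ < 1) (N i : ℕ) (k : ℤ) :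
    (∑ a ∈ (range N).filter (· ≤ i + 1), pp σ (a - k)) * (∑ b ∈ (range N).filter (i ≤ ·), pp σ (b - k)) * hh σ (i - k) ≤
      (σ ^ 2 * (1 - σ ^ 2) ^ 2 * hh σ (i - k))⁻¹ := by
  have hd := dd_pos h0 h1
  have hA := sum_below h0 h1 N i k
  have hB := sum_above h0 h1 N i k
  obtain ⟨m, hm⟩ : ∃ m : ℤ, m = i - k := ⟨_, rfl⟩
  rw [← hm] at hA hB ⊢
  have p1 := hh_pos h0 m
  have p2 := hh_pos h0 (m - 1)
  have p3 := hh_pos h0 (m + 1)
  have hB0 : 0 ≤ ∑ b ∈ (range N).filter (i ≤ ·), pp σ (b - k) := sum_nonneg fun b _ => (pp_pos h0 _).le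
  have z1 : 0 < σ ^ (-(m + 1)) := zpow_pos h0 _
  have h2 := mul_le_mul hA hB hB0 (by positivity)
  refine (mul_le_mul_of_nonneg_right h2 p1.le).trans ?_
  have e1 : σ ^ (-(m + 1)) * σ ^ (m - 1) = σ⁻¹ ^ 2 := by
    rw [← zpow_add₀ h0.ne', show -(m + 1) + (m - 1) = -2 by ring, zpow_neg, inv_pow]
    norm_cast
  rw [div_mul_div_comm, e1, div_mul_eq_mul_div, div_le_iff₀ (by positivity)]
  have q1 := le_pred h0 h1 m
  have q2 := le_succ h0 h1 m
  have q3 : (σ * hh σ m) * (σ * hh σ m) ≤ hh σ (m + 1) * hh σ (m - 1) :=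
    mul_le_mul q2 q1 (by positivity) p3.le
  have h1s : 0 < 1 - σ ^ 2 := by nlinarith
  have e2 : (σ ^ 2 * (1 - σ ^ 2) ^ 2 * hh σ m)⁻¹ * (hh σ (m + 1) * (σ⁻¹ - σ) * (hh σ (m - 1) * (σ⁻¹ - σ))) =
      (hh σ (m + 1) * hh σ (m - 1)) * (σ ^ 4 * hh σ m)⁻¹ := by
    have e3 : σ⁻¹ - σ = (1 - σ ^ 2) / σ := by
      field_simp
    rw [e3]
    field_simp
  rw [e2]
  have e4 : σ⁻¹ ^ 2 * hh σ m = (σ * hh σ m) * (σ * hh σ m) * (σ ^ 4 * hh σ m)⁻¹ := by
    field_simp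
  rw [e4]
  exact mul_le_mul_of_nonneg_right q3 (by positivity)

/-- the sum over all centres -/
theorem sum_inv_hh (h0 : 0 < σ) (h1 : σ < 1) (n i : ℕ) : ∑ k ∈ range n, (hh σ ((i : ℤ) - (k : ℕ)))⁻¹ ≤ 2 / (1 - σ) := by
  have hs : 0 < 1 - σ := by linarith
  have hgeo : ∀ M : ℕ, ∑ j ∈ range M, σ ^ j ≤ 1 / (1 - σ) := by
    intro M
    rw [le_div_iff₀ hs]
    have := geom_sum_mul_neg σ M
    have h2 : 0 < σ ^ M := pow_pos h0 _
    linarith
  have key : ∀ k : ℕ, (hh σ ((i : ℤ) - (k : ℕ)))⁻¹ ≤ if k ≤ i then σ ^ (i - k) else σ ^ (k - i) := by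
    intro k
    have p1 := hh_pos h0 ((i : ℤ) - k)
    split_ifs with h
    · have e : σ ^ (i - k) = (σ ^ (-((i : ℤ) - k)))⁻¹ := by
        rw [← zpow_neg, neg_neg, ← zpow_natCast]
        congr 1
        omega
      rw [e]
      refine inv_anti₀ (zpow_pos h0 _) ?_
      unfold hh
      linarith [zpow_pos h0 ((i : ℤ) - k)]
    · have e : σ ^ (k - i) = (σ ^ ((i : ℤ) - k))⁻¹ := by
        rw [← zpow_neg, ← zpow_natCast]
        congr 1
        omega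
      rw [e]
      refine inv_anti₀ (zpow_pos h0 _) ?_
      unfold hh
      linarith [zpow_pos h0 (-((i : ℤ) - k))]
  refine (sum_le_sum fun k _ => key k).trans ?_
  rw [sum_ite]
  have s1 : ∑ k ∈ (range n).filter (· ≤ i), σ ^ (i - k) ≤ 1 / (1 - σ) := by
    have h2 : ∑ k ∈ (range n).filter (· ≤ i), σ ^ (i - k) ≤ ∑ k ∈ range (i + 1), σ ^ (i - k) := by
      refine sum_le_sum_of_subset_of_nonneg ?_ fun a _ _ => (pow_pos h0 _).le
      intro a ha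
      rw [mem_filter] at ha
      rw [mem_range]
      omega
    have h3 : ∑ k ∈ range (i + 1), σ ^ (i - k) = ∑ j ∈ range (i + 1), σ ^ j := by
      rw [← sum_range_reflect]
      refine sum_congr rfl fun j hj => ?_
      rw [mem_range] at hj
      congr 1
      omega
    linarith [hgeo (i + 1)]
  have s2 : ∑ k ∈ (range n).filter (fun k => ¬ k ≤ i), σ ^ (k - i) ≤ 1 / (1 - σ) := by
    have h2 : ∑ k ∈ (range n).filter (fun k => ¬ k ≤ i), σ ^ (k - i) ≤ ∑ k ∈ Ico i (i + n), σ ^ (k - i) := by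
      refine sum_le_sum_of_subset_of_nonneg ?_ fun a _ _ => (pow_pos h0 _).le
      intro a ha
      rw [mem_filter, mem_range] at ha
      rw [mem_Ico]
      omega
    have h3 : ∑ k ∈ Ico i (i + n), σ ^ (k - i) = ∑ j ∈ range n, σ ^ j := by
      rw [sum_Ico_eq_sum_range, add_tsub_cancel_left]
      refine sum_congr rfl fun j _ => ?_
      congr 1
      omega
    linarith [hgeo n]
  have e : (2 : ℝ) / (1 - σ) = 1 / (1 - σ) + 1 / (1 - σ) := by ring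
  rw [e]
  exact add_le_add s1 s2

end Pool.Agent.Helper61.UNI
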