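import Pool.Agent.Helper61.UNI.Gini
import Pool.Agent.Helper61.UNI.Weights
import Pool.Agent.Helper99.ZB.Burau

/-!
# A uniform zero-free neighbourhood of the positive axis for all positive braids

For `0 < σ < 1` and complex `s` with `|s - σ| < σ⁵ (1 - σ²)³ (1 - σ) / 64` the matrix `1 - W` is invertible for the product `W` of the reduced Burau
matrices of every positive word in all generators, with any number of strands.
-/

set_option autoImplicit false

namespace Pool.Agent.Helper61.UNI

open Finset Matrix Pool.Agent.Helper99.ZB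

variable {n : ℕ}

/-- extension by zero -/
noncomputable def ex (v : Fin n → ℂ) (j : ℕ) : ℂ := if h : j < n then v ⟨j, h⟩ else 0

/-- the potential on the strands, for one centre -/
noncomputable def xx (σ : ℝ) (k : ℤ) (v : Fin n → ℂ) (a : ℕ) : ℂ := ∑ j ∈ range a, ((hh σ (j - k) : ℝ) : ℂ) * ex v j

/-- the Lyapunov function of one centre -/
noncomputable def Pk (σ : ℝ) (k : ℤ) (v : Fin n → ℂ) : ℝ := Phi (range (n + 1)) (fun a => pp σ (a - k)) (xx σ k v)

/-- the new vector -/
noncomputable def nw (s : ℂ) (i : ℕ) (v : Fin n → ℂ) : Fin n → ℂ := v ᵥ* Bm s n i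

theorem nw_apply (s : ℂ) {i : ℕ} (hi : i < n) (v : Fin n → ℂ) (j : Fin n) :
    nw s i v j = v j - ex v i * ell s n i j := by
  unfold nw Bm Pm ex
  rw [vecMul_sub, vecMul_one, Pi.sub_apply, dif_pos hi]
  congr 1
  unfold vecMul dotProduct
  rw [sum_eq_single (⟨i, hi⟩ : Fin n)]
  · simp [vecMulVec_apply, del]
  · intro b _ hb
    have : (b : ℕ) ≠ i := fun h => hb (Fin.ext h)
    simp [vecMulVec_apply, del, this]
  · intro h
    exact absurd (mem_univ _) h

/-- the coefficient of the change -/
noncomputable def el (s : ℂ) (i j : ℕ) : ℂ := if j = i then 1 + s ^ 2 else if j + 1 = i ∨ i + 1 = j then -s else 0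

theorem ex_nw (s : ℂ) {i : ℕ} (hi : i < n) (v : Fin n → ℂ) {j : ℕ} (hj : j < n) :
    ex (nw s i v) j = ex v j - ex v i * el s i j := by
  have h1 : ex (nw s i v) j = nw s i v ⟨j, hj⟩ := by
    unfold ex
    rw [dif_pos hj]
  have h2 : ex v j = v ⟨j, hj⟩ := by
    unfold ex
    rw [dif_pos hj]
  rw [h1, nw_apply s hi, h2]
  rfl

theorem ex_nw_same (s : ℂ) {i : ℕ} (hi : i < n) (v : Fin n → ℂ) (h0 : ex v i = 0) : nw s i v = v := by
  ext j
  rw [nw_apply s hi, h0, zero_mul, sub_zero]

/-- the constant which is added for the first letter -/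
noncomputable def cst (σ : ℝ) (k : ℤ) (s : ℂ) (i : ℕ) (v : Fin n → ℂ) : ℂ :=
  if i = 0 then s * ((hh σ ((i : ℤ) - k - 1) : ℝ) : ℂ) * ex v i else 0

/-- the change of the potential -/
theorem xx_nw (σ : ℝ) (k : ℤ) (s : ℂ) {i : ℕ} (hi : i < n) (v : Fin n → ℂ) (a : ℕ) (ha : a ≤ n) :
    xx σ k (nw s i v) a + cst σ k s i v = xx σ k v a + ex v i *
      (if a < i then 0 else if a = i then s * ((hh σ ((i : ℤ) - k - 1) : ℝ) : ℂ)
        else if a = i + 1 then s * ((hh σ ((i : ℤ) - k - 1) : ℝ) : ℂ) - (1 + s ^ 2) * ((hh σ ((i : ℤ) - k) : ℝ) : ℂ)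
        else s * ((hh σ ((i : ℤ) - k - 1) : ℝ) : ℂ) - (1 + s ^ 2) * ((hh σ ((i : ℤ) - k) : ℝ) : ℂ) +
          s * ((hh σ ((i : ℤ) - k + 1) : ℝ) : ℂ)) := by
  induction a with
  | zero =>
    unfold xx cst
    rw [range_zero, sum_empty, sum_empty]
    by_cases h : i = 0
    · subst h
      simp
      ring
    · rw [if_neg h, if_pos (by omega)]
      ring
  | succ a ih =>
    have h1 := ih (by omega)
    have e1 : ∀ u : Fin n → ℂ, xx σ k u (a + 1) = xx σ k u a + ((hh σ (a - k) : ℝ) : ℂ) * ex u a := by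
      intro u
      unfold xx
      rw [sum_range_succ]
    rw [e1, e1, ex_nw s hi v (by omega : a < n)]
    have e2 : xx σ k (nw s i v) a + ((hh σ (a - k) : ℝ) : ℂ) * (ex v a - ex v i * el s i a) + cst σ k s i v =
        (xx σ k (nw s i v) a + cst σ k s i v) + ((hh σ (a - k) : ℝ) : ℂ) * (ex v a - ex v i * el s i a) := by ring
    rw [e2, h1]
    unfold el
    rcases lt_trichotomy a i with h | h | h
    · rw [if_pos h, if_neg (by omega : ¬ a = i)]
      by_cases h2 : a + 1 = i
      · rw [if_neg (by omega : ¬ a + 1 < i), if_pos h2, if_pos (Or.inl h2)]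
        have e3 : ((a : ℤ) - k) = (i : ℤ) - k - 1 := by
          rw [← h2]
          push_cast
          ring
        rw [e3]
        ring
      · rw [if_pos (by omega : a + 1 < i), if_neg (by omega)]
        ring
    · subst h
      rw [if_neg (by omega), if_pos rfl, if_pos rfl, if_neg (by omega), if_neg (by omega), if_pos rfl]
      ring
    · rw [if_neg (by omega), if_neg (by omega : ¬ a = i), if_neg (by omega : ¬ a = i), if_neg (by omega : ¬ a + 1 < i),
        if_neg (by omega : ¬ a + 1 = i), if_neg (by omega : ¬ a + 1 = i + 1)]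
      by_cases h2 : a = i + 1
      · rw [if_pos h2, if_pos (Or.inr h2.symm)]
        have e3 : ((a : ℤ) - k) = (i : ℤ) - k + 1 := by
          rw [h2]
          push_cast
          ring
        rw [e3]
        ring
      · rw [if_neg h2, if_neg (by omega)]
        ring

end Pool.Agent.Helper61.UNI
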