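import Pool.Agent.Helper61.UNI.Lyap

/-!
# A uniform zero-free neighbourhood of the positive axis: the main lemma
-/

set_option autoImplicit false

namespace Pool.Agent.Helper61.UNI

open Finset Matrix Pool.Agent.Helper99.ZB

variable {n : ℕ}

theorem Phi_congr {S : Finset ℕ} {p : ℕ → ℝ} {x y : ℕ → ℂ} (h : ∀ a ∈ S, x a = y a) : Phi S p x = Phi S p y := by
  unfold Phi
  exact sum_congr rfl fun a ha => sum_congr rfl fun b hb => by rw [h a ha, h b hb]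

theorem Phi_shift (S : Finset ℕ) (p : ℕ → ℝ) (x : ℕ → ℂ) (c : ℂ) : Phi S p (fun a => x a + c) = Phi S p x := by
  unfold Phi
  refine sum_congr rfl fun a _ => sum_congr rfl fun b _ => ?_
  rw [add_sub_add_right_eq_sub]

/-- **One letter, one centre.** -/
theorem Pk_step {σ : ℝ} (h0 : 0 < σ) (h1 : σ < 1) (k : ℤ) {s : ℂ} (hs : ‖s‖ ≤ 1) {i : ℕ} (hi : i < n) (v : Fin n → ℂ) :
    Pk σ k (nw s i v) ≤ Pk σ k v - 2 * (1 - σ ^ 2) * (pp σ (i - k) * pp σ (i - k + 1)) * (hh σ (i - k) * ‖ex v i‖) +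
      8 * (‖s - σ‖ / σ) * ‖ex v i‖ * (σ ^ 2 * (1 - σ ^ 2) ^ 2 * hh σ (i - k))⁻¹ := by
  obtain ⟨m, hm⟩ : ∃ m : ℤ, m = i - k := ⟨_, rfl⟩
  obtain ⟨d, hd⟩ : ∃ d, d = ‖s - σ‖ := ⟨_, rfl⟩
  have hd0 : 0 ≤ d := by rw [hd]; exact norm_nonneg _
  obtain ⟨y, hy⟩ : ∃ y, y = ex v i := ⟨_, rfl⟩
  obtain ⟨x, hx⟩ : ∃ x, x = xx σ k v := ⟨_, rfl⟩
  have hpos := hh_pos h0 m
  have hpos1 := hh_pos h0 (m - 1)
  have hpos2 := hh_pos h0 (m + 1)
  -- the real coefficients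
  obtain ⟨α, hα⟩ : ∃ α, α = σ * hh σ (m - 1) / hh σ m := ⟨_, rfl⟩
  obtain ⟨β, hβ⟩ : ∃ β, β = σ * hh σ (m + 1) / hh σ m := ⟨_, rfl⟩
  have hα0 : 0 ≤ α := by rw [hα]; positivity
  have hβ0 : 0 ≤ β := by rw [hβ]; positivity
  have hα1 : α ≤ 1 := by rw [hα, div_le_one hpos]; exact pred_le h0 h1 m
  have hβ1 : β ≤ 1 := by rw [hβ, div_le_one hpos]; exact succ_le h0 h1 m
  have hab : α + β = 1 + σ ^ 2 := by
    rw [hα, hβ, ← add_div, harm h0, mul_div_cancel_right₀ _ hpos.ne']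
  have hrev : pp σ ((i : ℕ) - k) * α = pp σ (((i + 1 : ℕ) : ℤ) - k) * β := by
    rw [hα, hβ, hm]
    have h := pp_rev h0 ((i : ℤ) - k)
    rw [h]
    congr 2
    push_cast
    ring
  have hαy : (α : ℂ) * (((hh σ m : ℝ) : ℂ) * y) = σ * ((hh σ (m - 1) : ℝ) : ℂ) * y := by
    rw [hα]
    push_cast
    have : ((hh σ m : ℝ) : ℂ) ≠ 0 := by exact_mod_cast hpos.ne'
    field_simp
  have hβy : (β : ℂ) * (((hh σ m : ℝ) : ℂ) * y) = σ * ((hh σ (m + 1) : ℝ) : ℂ) * y := by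
    rw [hβ]
    push_cast
    have : ((hh σ m : ℝ) : ℂ) ≠ 0 := by exact_mod_cast hpos.ne'
    field_simp
  have hxi : x (i + 1) = x i + ((hh σ m : ℝ) : ℂ) * y := by
    rw [hx, hy, hm]
    unfold xx
    rw [sum_range_succ]
  have hharm : (σ : ℂ) * ((hh σ (m - 1) : ℝ) : ℂ) + σ * ((hh σ (m + 1) : ℝ) : ℂ) = (1 + (σ : ℂ) ^ 2) * ((hh σ m : ℝ) : ℂ) := by
    have := harm h0 m
    exact_mod_cast this
  -- the unperturbed step
  obtain ⟨x0, hx0⟩ : ∃ x0 : ℕ → ℂ, x0 = fun a => if a = i then (1 - α : ℝ) * x i + (α : ℝ) * x (i + 1) else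
    if a = i + 1 then (β : ℝ) * x i + (1 - β : ℝ) * x (i + 1) else x a := ⟨_, rfl⟩
  have hg := gini (S := range (n + 1)) (p := fun a => pp σ (a - k)) (fun a => (pp_pos h0 _).le) (i := i) (mem_range.2 (by omega))
    (mem_range.2 (by omega)) (t := σ ^ 2) hα0 hα1 hβ0 hβ1 hab (sq_nonneg σ) hrev (x := x) (x' := x0)
    (fun a h2 h3 => by rw [hx0]; exact (if_neg h2).trans (if_neg h3)) (by rw [hx0]; exact if_pos rfl)
    (by rw [hx0]; exact (if_neg (by omega)).trans (if_pos rfl))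
  -- the errors
  obtain ⟨E1, hE1⟩ : ∃ E1 : ℂ, E1 = (s - σ) * ((hh σ (m - 1) : ℝ) : ℂ) * y := ⟨_, rfl⟩
  obtain ⟨E2, hE2⟩ : ∃ E2 : ℂ, E2 = ((s - σ) * ((hh σ (m - 1) : ℝ) : ℂ) - (s - σ) * (s + σ) * ((hh σ m : ℝ) : ℂ)) * y := ⟨_, rfl⟩
  obtain ⟨E3, hE3⟩ : ∃ E3 : ℂ, E3 = ((s - σ) * (((hh σ (m - 1) : ℝ) : ℂ) + ((hh σ (m + 1) : ℝ) : ℂ)) -
    (s - σ) * (s + σ) * ((hh σ m : ℝ) : ℂ)) * y := ⟨_, rfl⟩
  obtain ⟨e, he⟩ : ∃ e : ℕ → ℂ, e = fun a => if a < i then 0 else if a = i then E1 else if a = i + 1 then E2 else E3 := ⟨_, rfl⟩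
  have hcongr : Pk σ k (nw s i v) = Phi (range (n + 1)) (fun a => pp σ (a - k)) (fun a => x0 a + e a) := by
    unfold Pk
    rw [← Phi_shift _ _ _ (cst σ k s i v)]
    refine Phi_congr fun a ha => ?_
    have ha' : a ≤ n := by
      have := mem_range.1 ha
      omega
    have hxn := xx_nw σ k s hi v a ha'
    rw [← hx, ← hy, ← hm] at hxn
    rw [hxn, hx0, he]
    simp only
    rcases lt_trichotomy a i with h | h | h
    · rw [if_pos h, if_neg (by omega), if_neg (by omega), if_pos h]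
      ring
    · subst h
      rw [if_neg (by omega), if_pos rfl, if_pos rfl, if_neg (by omega), if_pos rfl, hE1, hxi]
      push_cast
      linear_combination (-1 : ℂ) * hαy
    · rw [if_neg (by omega : ¬ a < i), if_neg (by omega : ¬ a = i), if_neg (by omega : ¬ a = i), if_neg (by omega : ¬ a < i),
        if_neg (by omega : ¬ a = i)]
      by_cases h2 : a = i + 1
      · rw [if_pos h2, if_pos h2, if_pos h2, hE2, h2, hxi]
        push_cast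
        linear_combination hβy + y * hharm
      · rw [if_neg h2, if_neg h2, if_neg h2, hE3]
        linear_combination y * hharm
  obtain ⟨c, hc⟩ : ∃ c, c = 4 * (d / σ) * (hh σ m * ‖y‖) := ⟨_, rfl⟩
  have hc0 : 0 ≤ c := by rw [hc]; positivity
  have hsσ : ‖s + σ‖ ≤ 2 := by
    refine (norm_add_le _ _).trans ?_
    rw [Complex.norm_real, Real.norm_of_nonneg h0.le]
    linarith
  -- basic sizes
  have hm1 : hh σ (m - 1) ≤ hh σ m / σ := by rw [le_div_iff₀ h0, mul_comm]; exact pred_le h0 h1 m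
  have hp1 : hh σ (m + 1) ≤ hh σ m / σ := by rw [le_div_iff₀ h0, mul_comm]; exact succ_le h0 h1 m
  obtain ⟨u, hu⟩ : ∃ u, u = d / σ * (hh σ m * ‖y‖) := ⟨_, rfl⟩
  have hu0 : 0 ≤ u := by rw [hu]; positivity
  have hcu : c = 4 * u := by rw [hc, hu]; ring
  have nA : ‖(s - σ) * ((hh σ (m - 1) : ℝ) : ℂ) * y‖ ≤ u := by
    rw [norm_mul, norm_mul, Complex.norm_real, Real.norm_of_nonneg hpos1.le, ← hd, hu]
    calc d * hh σ (m - 1) * ‖y‖ ≤ d * (hh σ m / σ) * ‖y‖ := by gcongr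
      _ = d / σ * (hh σ m * ‖y‖) := by ring
  have nB : ‖(s - σ) * ((hh σ (m + 1) : ℝ) : ℂ) * y‖ ≤ u := by
    rw [norm_mul, norm_mul, Complex.norm_real, Real.norm_of_nonneg hpos2.le, ← hd, hu]
    calc d * hh σ (m + 1) * ‖y‖ ≤ d * (hh σ m / σ) * ‖y‖ := by gcongr
      _ = d / σ * (hh σ m * ‖y‖) := by ring
  have nC : ‖(s - σ) * (s + σ) * ((hh σ m : ℝ) : ℂ) * y‖ ≤ 2 * u := by
    rw [norm_mul, norm_mul, norm_mul, Complex.norm_real, Real.norm_of_nonneg hpos.le, ← hd, hu]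
    calc d * ‖s + σ‖ * hh σ m * ‖y‖ ≤ d * 2 * hh σ m * ‖y‖ := by gcongr
      _ ≤ d / σ * 2 * hh σ m * ‖y‖ := by
        have : d ≤ d / σ := by
          rw [le_div_iff₀ h0]
          nlinarith
        gcongr
      _ = 2 * (d / σ * (hh σ m * ‖y‖)) := by ring
  obtain ⟨A, hA⟩ : ∃ A, A = (s - σ) * ((hh σ (m - 1) : ℝ) : ℂ) * y := ⟨_, rfl⟩
  obtain ⟨B, hB⟩ : ∃ B, B = (s - σ) * ((hh σ (m + 1) : ℝ) : ℂ) * y := ⟨_, rfl⟩
  obtain ⟨C, hC⟩ : ∃ C, C = (s - σ) * (s + σ) * ((hh σ m : ℝ) : ℂ) * y := ⟨_, rfl⟩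
  rw [← hA] at nA
  rw [← hB] at nB
  rw [← hC] at nC
  have f1 : E1 = A := by rw [hE1, hA]
  have f2 : E2 = A - C := by rw [hE2, hA, hC]; ring
  have f3 : E3 = A + B - C := by rw [hE3, hA, hB, hC]; ring
  have g1 : ‖E1‖ ≤ c := by rw [f1, hcu]; linarith
  have g2 : ‖E2‖ ≤ c := by
    rw [f2, hcu]
    refine (norm_sub_le _ _).trans ?_
    linarith
  have g3 : ‖E3‖ ≤ c := by
    rw [f3, hcu]
    refine (norm_sub_le _ _).trans ?_
    have := norm_add_le A B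
    linarith
  have g4 : ‖E1 - E2‖ ≤ c := by
    rw [f1, f2, hcu, sub_sub_cancel]
    linarith
  have g5 : ‖E1 - E3‖ ≤ c := by
    rw [f1, f3, hcu, show A - (A + B - C) = C - B by ring]
    refine (norm_sub_le _ _).trans ?_
    linarith
  have g6 : ‖E2 - E3‖ ≤ c := by
    rw [f2, f3, hcu, show A - C - (A + B - C) = -B by ring, norm_neg]
    linarith
  have herr : Phi (range (n + 1)) (fun a => pp σ (a - k)) e ≤ 2 * c * (∑ a ∈ (range (n + 1)).filter (· ≤ i + 1), pp σ (a - k)) *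
      ∑ b ∈ (range (n + 1)).filter (i ≤ ·), pp σ (b - k) := by
    refine Phi_err (fun a => (pp_pos h0 _).le) hc0 ?_ ?_ ?_
    · intro a h
      rw [he]
      simp only
      rw [if_pos h]
    · intro a b ha hb
      rw [he]
      simp only
      rw [if_neg (by omega), if_neg (by omega), if_neg (by omega), if_neg (by omega), if_neg (by omega), if_neg (by omega)]
    · intro a b
      rw [he]
      simp only
      have hz : ‖(0 : ℂ) - 0‖ ≤ c := by rw [sub_zero, norm_zero]; exact hc0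
      have hself : ∀ E : ℂ, ‖E - E‖ ≤ c := fun E => by rw [sub_self, norm_zero]; exact hc0
      split_ifs <;> first
        | exact hz
        | exact hself _
        | (rw [zero_sub, norm_neg]; assumption)
        | (rw [sub_zero]; assumption)
        | assumption
        | (rw [norm_sub_rev]; assumption)
  have hloss := loss_le h0 h1 (n + 1) i k
  have hadd := Phi_add_le (S := range (n + 1)) (p := fun a => pp σ (a - k)) (fun a => (pp_pos h0 _).le) x0 e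
  have hyn : ‖x (i + 1) - x i‖ = hh σ m * ‖y‖ := by
    rw [hxi, add_sub_cancel_left, norm_mul, Complex.norm_real, Real.norm_of_nonneg hpos.le]
  rw [hyn] at hg
  have hPk : Pk σ k v = Phi (range (n + 1)) (fun a => pp σ (a - k)) x := by
    rw [hx]
    rfl
  rw [hcongr, hPk]
  have e5 : ((i + 1 : ℕ) : ℤ) - k = m + 1 := by
    rw [hm]
    push_cast
    ring
  rw [e5, ← hm] at hg
  rw [← hm] at hloss
  rw [← hm, ← hd, ← hy]
  obtain ⟨SA, hSA⟩ : ∃ SA, SA = ∑ a ∈ (range (n + 1)).filter (· ≤ i + 1), pp σ (a - k) := ⟨_, rfl⟩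
  obtain ⟨SB, hSB⟩ : ∃ SB, SB = ∑ b ∈ (range (n + 1)).filter (i ≤ ·), pp σ (b - k) := ⟨_, rfl⟩
  rw [← hSA, ← hSB] at hloss herr
  have h8 : 2 * c * SA * SB = 8 * (d / σ) * ‖y‖ * (SA * SB * hh σ m) := by rw [hc]; ring
  have h9 : 8 * (d / σ) * ‖y‖ * (SA * SB * hh σ m) ≤ 8 * (d / σ) * ‖y‖ * (σ ^ 2 * (1 - σ ^ 2) ^ 2 * hh σ m)⁻¹ :=
    mul_le_mul_of_nonneg_left hloss (by positivity)
  rw [h8] at herr
  linarith

/-- **The Lyapunov function.** -/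
noncomputable def PP (σ : ℝ) (v : Fin n → ℂ) : ℝ := ∑ k ∈ range n, Pk σ ((k : ℕ) : ℤ) v

/-- the gain of one letter -/
noncomputable def gain (σ d : ℝ) : ℝ := σ ^ 2 * (1 - σ ^ 2) / 4 - 16 * d / (σ ^ 3 * (1 - σ ^ 2) ^ 2 * (1 - σ))

/-- **One letter.** -/
theorem PP_step {σ : ℝ} (h0 : 0 < σ) (h1 : σ < 1) {s : ℂ} (hs : ‖s‖ ≤ 1) {i : ℕ} (hi : i < n) (v : Fin n → ℂ) :
    PP σ (nw s i v) ≤ PP σ v - gain σ ‖s - σ‖ * ‖ex v i‖ := by
  obtain ⟨d, hd⟩ : ∃ d, d = ‖s - σ‖ := ⟨_, rfl⟩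
  have hd0 : 0 ≤ d := by rw [hd]; exact norm_nonneg _
  have hσ2 : 0 < 1 - σ ^ 2 := by nlinarith
  have hσ1 : 0 < 1 - σ := by linarith
  unfold PP
  have h2 := sum_le_sum fun k (_ : k ∈ range n) => Pk_step h0 h1 ((k : ℕ) : ℤ) hs hi v
  refine h2.trans ?_
  rw [sum_add_distrib, sum_sub_distrib]
  -- the gain
  have h3 : σ ^ 2 * (1 - σ ^ 2) / 4 * ‖ex v i‖ ≤ ∑ k ∈ range n, 2 * (1 - σ ^ 2) * (pp σ (i - ((k : ℕ) : ℤ)) * pp σ (i - ((k : ℕ) : ℤ) + 1)) *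
      (hh σ (i - ((k : ℕ) : ℤ)) * ‖ex v i‖) := by
    have h4 : ∀ k ∈ range n, 0 ≤ 2 * (1 - σ ^ 2) * (pp σ (i - ((k : ℕ) : ℤ)) * pp σ (i - ((k : ℕ) : ℤ) + 1)) *
        (hh σ (i - ((k : ℕ) : ℤ)) * ‖ex v i‖) := by
      intro k _
      have := pp_pos h0 (i - ((k : ℕ) : ℤ))
      have := pp_pos h0 (i - ((k : ℕ) : ℤ) + 1)
      have := hh_pos h0 (i - ((k : ℕ) : ℤ))
      positivity
    refine le_trans ?_ (single_le_sum h4 (mem_range.2 hi))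
    rw [sub_self, zero_add]
    have e1 : hh σ (-1) = (1 + σ ^ 2) / σ := by
      unfold hh
      rw [neg_neg, _root_.zpow_neg, zpow_one]
      field_simp
    have e2 : pp σ 0 = σ / (2 * (1 + σ ^ 2)) := by
      unfold pp
      rw [zero_sub, e1, hh_zero]
      field_simp
    have e3 : pp σ 1 = σ / (2 * (1 + σ ^ 2)) := by
      unfold pp
      rw [sub_self, hh_zero, ← hh_neg (σ := σ) 1, e1]
      field_simp
    rw [e2, e3, hh_zero]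
    have h5 : (σ / (2 * (1 + σ ^ 2))) * (σ / (2 * (1 + σ ^ 2))) ≥ σ ^ 2 / 16 := by
      rw [div_mul_div_comm, ge_iff_le, div_le_div_iff₀ (by norm_num) (by positivity)]
      have : σ ^ 2 ≤ 1 := by nlinarith
      have h6 : (1 + σ ^ 2) * (1 + σ ^ 2) ≤ 4 := by nlinarith [sq_nonneg σ]
      have h7 : 0 < σ ^ 2 := by positivity
      nlinarith
    have h6 : 0 ≤ ‖ex v i‖ := norm_nonneg _
    calc σ ^ 2 * (1 - σ ^ 2) / 4 * ‖ex v i‖ = 2 * (1 - σ ^ 2) * (σ ^ 2 / 16) * (2 * ‖ex v i‖) := by ring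
      _ ≤ 2 * (1 - σ ^ 2) * (σ / (2 * (1 + σ ^ 2)) * (σ / (2 * (1 + σ ^ 2)))) * (2 * ‖ex v i‖) := by
        gcongr
  -- the loss
  have h4 : ∑ k ∈ range n, 8 * (‖s - σ‖ / σ) * ‖ex v i‖ * (σ ^ 2 * (1 - σ ^ 2) ^ 2 * hh σ (i - ((k : ℕ) : ℤ)))⁻¹ ≤
      16 * d / (σ ^ 3 * (1 - σ ^ 2) ^ 2 * (1 - σ)) * ‖ex v i‖ := by
    have e1 : ∀ k ∈ range n, 8 * (‖s - σ‖ / σ) * ‖ex v i‖ * (σ ^ 2 * (1 - σ ^ 2) ^ 2 * hh σ (i - ((k : ℕ) : ℤ)))⁻¹ =
        8 * (d / σ) * ‖ex v i‖ * (σ ^ 2 * (1 - σ ^ 2) ^ 2)⁻¹ * (hh σ (i - ((k : ℕ) : ℤ)))⁻¹ := by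
      intro k _
      rw [← hd, mul_inv (σ ^ 2 * (1 - σ ^ 2) ^ 2)]
      ring
    rw [sum_congr rfl e1, ← mul_sum]
    have h5 := sum_inv_hh h0 h1 n i
    have h6 := mul_le_mul_of_nonneg_left h5 (by positivity : 0 ≤ 8 * (d / σ) * ‖ex v i‖ * (σ ^ 2 * (1 - σ ^ 2) ^ 2)⁻¹)
    refine h6.trans (le_of_eq ?_)
    field_simp
    ring
  unfold gain
  rw [← hd] at h4 ⊢
  have e6 : (σ ^ 2 * (1 - σ ^ 2) / 4 - 16 * d / (σ ^ 3 * (1 - σ ^ 2) ^ 2 * (1 - σ))) * ‖ex v i‖ =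
      σ ^ 2 * (1 - σ ^ 2) / 4 * ‖ex v i‖ - 16 * d / (σ ^ 3 * (1 - σ ^ 2) ^ 2 * (1 - σ)) * ‖ex v i‖ := by ring
  rw [e6]
  linarith

theorem gain_pos {σ d : ℝ} (h0 : 0 < σ) (h1 : σ < 1) (hd : d < σ ^ 5 * (1 - σ ^ 2) ^ 3 * (1 - σ) / 64) : 0 < gain σ d := by
  have hσ2 : 0 < 1 - σ ^ 2 := by nlinarith
  have hσ1 : 0 < 1 - σ := by linarith
  unfold gain
  rw [sub_pos, div_lt_div_iff₀ (by positivity) (by norm_num)]
  have h2 : 64 * d < σ ^ 5 * (1 - σ ^ 2) ^ 3 * (1 - σ) := by linarith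
  calc 16 * d * 4 = 64 * d := by ring
    _ < σ ^ 5 * (1 - σ ^ 2) ^ 3 * (1 - σ) := h2
    _ = σ ^ 2 * (1 - σ ^ 2) * (σ ^ 3 * (1 - σ ^ 2) ^ 2 * (1 - σ)) := by ring

/-- **A word.** -/
theorem PP_word {σ : ℝ} (h0 : 0 < σ) (h1 : σ < 1) {s : ℂ} (hs : ‖s‖ ≤ 1) (hd : ‖s - σ‖ < σ ^ 5 * (1 - σ ^ 2) ^ 3 * (1 - σ) / 64) :
    ∀ (w : List ℕ), (∀ a ∈ w, a < n) → ∀ v : Fin n → ℂ,
      PP σ (v ᵥ* W s n w) ≤ PP σ v ∧ (PP σ (v ᵥ* W s n w) = PP σ v → ∀ a ∈ w, ex v a = 0) := by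
  intro w
  have hg := gain_pos h0 h1 hd
  induction w with
  | nil =>
    intro _ v
    rw [W_nil, vecMul_one]
    exact ⟨le_rfl, fun _ a ha => absurd ha (by simp)⟩
  | cons i u ih =>
    intro hw v
    have hi : i < n := hw i (by simp)
    have hu : ∀ a ∈ u, a < n := fun a ha => hw a (List.mem_cons_of_mem _ ha)
    have e : v ᵥ* W s n (i :: u) = (nw s i v) ᵥ* W s n u := by
      rw [W_cons, ← vecMul_vecMul]
      rfl
    obtain ⟨h2, h3⟩ := ih hu (nw s i v)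
    have h4 := PP_step h0 h1 hs hi v
    have h5 : 0 ≤ gain σ ‖s - σ‖ * ‖ex v i‖ := mul_nonneg hg.le (norm_nonneg _)
    rw [e]
    refine ⟨by linarith, fun heq => ?_⟩
    have h6 : gain σ ‖s - σ‖ * ‖ex v i‖ = 0 := by linarith
    have h7 : ex v i = 0 := by
      rcases mul_eq_zero.1 h6 with h | h
      · exact absurd h hg.ne'
      · exact norm_eq_zero.1 h
    have h8 := ex_nw_same s hi v h7
    rw [h8] at h3 heq
    intro a ha
    rcases List.mem_cons.1 ha with rfl | ha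
    · exact h7
    · exact h3 heq a ha

/-- **The main lemma.** -/
theorem det_ne_zero_near {σ : ℝ} (h0 : 0 < σ) (h1 : σ < 1) {s : ℂ} (hs : ‖s‖ ≤ 1)
    (hd : ‖s - σ‖ < σ ^ 5 * (1 - σ ^ 2) ^ 3 * (1 - σ) / 64) {n : ℕ} {w : List ℕ} (hw : ∀ a ∈ w, a < n) (hf : ∀ a < n, a ∈ w) :
    det (1 - W s n w) ≠ 0 := by
  intro hdet
  obtain ⟨v, hv, hv2⟩ := exists_vecMul_eq_zero_iff.2 hdet
  rw [vecMul_sub, vecMul_one, sub_eq_zero] at hv2
  obtain ⟨-, h2⟩ := PP_word h0 h1 hs hd w hw v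
  apply hv
  ext j
  have h3 := h2 (by rw [← hv2]) j (hf j j.2)
  unfold ex at h3
  rw [dif_pos j.2] at h3
  exact h3

end Pool.Agent.Helper61.UNI
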